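import Pool.Agent.H472R3.NF.Mult

/-!
# Bounded logarithmic averages of the products of Birch and Swinnerton-Dyer

Let `E : y² = x³ + a x + b` be any elliptic curve over any number field `K`, with integral
coefficients, and `EP(x)` the product of `#E(k_v) / N v` over the places `v` with `N v ≤ x` not
dividing `2 (4 a³ + 27 b²)`. If, for some real `κ`, the logarithmic averages of
`log EP(n) - κ log log n` are bounded, then `L(E/K, s)` has a holomorphic continuation `G` without
zeros to `Re s > 1`, `|G(1 + w)|` is between two constant multiples of `w ^ κ` for small `w > 0`, and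
every meromorphic function near `1` which continues `G` has order `κ` at `1` (so `κ` is an integer).
Nothing is assumed on `L(E/K, s)`.
-/

set_option autoImplicit false

open Filter NumberField Topology

namespace Pool.Agent.Results.MP_1a91b9_nt.AveragesAndOrder

open Pool.Agent.H438R3.BSD.NF (LA)
open Pool.Agent.H472R3.NF (IsProd)

/-- See the introduction. -/
theorem result (K : Type) [Field K] [NumberField K] (a b : 𝓞 K)
    (_hab : 4 * a ^ 3 + 27 * b ^ 2 ≠ 0) (κ C : ℝ) (hC : ∀ᶠ x : ℕ in atTop, |LA a b κ x| ≤ C) :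
    ∃ G : ℂ → ℂ, DifferentiableOn ℂ G {s | 1 < s.re} ∧ (∀ s : ℂ, 1 < s.re → G s ≠ 0) ∧
      (∀ s : ℂ, 3 / 2 < s.re → IsProd a b s (G s)) ∧
      (∃ B : ℝ, ∀ᶠ w : ℝ in 𝓝[>] 0, |Real.log ‖G (1 + w)‖ - κ * Real.log w| ≤ B) ∧
      ∀ H : ℂ → ℂ, MeromorphicAt H 1 → (∀ᶠ w : ℝ in 𝓝[>] 0, H (1 + w) = G (1 + w)) →
        ∃ m : ℤ, meromorphicOrderAt H 1 = m ∧ κ = m :=
  Pool.Agent.H472R3.NF.averages_final a b κ C hC

end Pool.Agent.Results.MP_1a91b9_nt.AveragesAndOrder
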