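import Pool.Agent.H472R3.NF.Fin

/-!
# One-sided bounds for the products of Birch and Swinnerton-Dyer over number fields, with a local
# continuation only

Let `E : y² = x³ + a x + b` be an elliptic curve over a number field `K` with integral coefficients
and `EP(x)` the product of `#E(k_v) / N v` over the places `v` with `N v ≤ x` not dividing
`2 (4 a³ + 27 b²)`. Let `F` be a function which is equal to the Euler product of `L(E/K, s)` for
`Re s > 3/2` and which is meromorphic at every point of the real half line `[1, ∞)`; nothing else is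
assumed (for `K` totally real or CM such a continuation is known by potential automorphy). Then `F`
has a finite order `m` at `1` and:

1. if `F` has no real pole greater than `1`, then for `κ < m` the logarithmic averages of
`log EP(n) - κ log log n` (and `EP(n) / (log n) ^ κ` itself) are unbounded above; if `L(E/K, s)` has no
holomorphic continuation without zeros to `Re s > 1`, this holds for all `κ`;

2. if `F` has no real zero greater than `1`, then for `κ > m` they are unbounded below (not bounded
away from `0`); if `L(E/K, s)` has no holomorphic continuation without zeros to `Re s > 1`, this holds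
for all `κ`.

In other words: a one-sided bound for `EP(x) / (log x) ^ κ`, even on logarithmic average, implies that
`L(E/K, s)` extends holomorphically and without zeros to `Re s > 1`, and an inequality between `m`
and `κ`.
-/

set_option autoImplicit false

open Filter NumberField

namespace Pool.Agent.Results.MP_1a91b9_nt.OneSidedContinuation

open Pool.Agent.H438R3.BSD.NF (EP LA)
open Pool.Agent.H472R3.NF (IsProd ZeroFree)

/-- See the introduction. -/
theorem result (K : Type) [Field K] [NumberField K] (a b : 𝓞 K)
    (_hab : 4 * a ^ 3 + 27 * b ^ 2 ≠ 0) (F : ℂ → ℂ)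
    (hL : ∀ s : ℂ, 3 / 2 < s.re → IsProd a b s (F s))
    (hF : ∀ σ : ℝ, 1 ≤ σ → MeromorphicAt F (σ : ℂ)) :
    ∃ m : ℤ, meromorphicOrderAt F 1 = m ∧
    ((∀ σ : ℝ, 1 < σ → 0 ≤ meromorphicOrderAt F σ) →
      ∀ κ : ℝ, (κ < m ∨ ¬ ZeroFree a b) → ∀ C : ℝ,
      (∃ᶠ x : ℕ in atTop, C < LA a b κ x) ∧
      ∃ᶠ x : ℕ in atTop, C * Real.log x ^ κ < EP a b x) ∧
    ((∀ σ : ℝ, 1 < σ → meromorphicOrderAt F σ ≤ 0) →
      ∀ κ : ℝ, ((m : ℝ) < κ ∨ ¬ ZeroFree a b) → ∀ C : ℝ, 0 < C →
      (∃ᶠ x : ℕ in atTop, LA a b κ x < -C) ∧
      ∃ᶠ x : ℕ in atTop, EP a b x < C * Real.log x ^ κ) :=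
  Pool.Agent.H472R3.NF.main a b hF hL

end Pool.Agent.Results.MP_1a91b9_nt.OneSidedContinuation
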